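import Pool.Agent.H32.RQ.Targets

/-!
Pairs of quadratic forms (`MP_63b6b1_nt`): the vectors which are orthogonal to a small vector with
at most three nonzero coordinates are rare (BDS).
-/

set_option autoImplicit false

open Finset Pool.Agent.H32.RQ

namespace Pool.Agent.H67.RQ

theorem card_icc (B : ℕ) : (Finset.Icc (-(B : ℤ)) B).card = 2 * B + 1 := by
  rw [Int.card_Icc]
  omega

theorem card_hyp {s : ℕ} (B : ℕ) (l : Fin s → ℤ) (k : Fin s) (hk : l k ≠ 0) :
    ((vb s B).filter fun x => ∑ i, l i * x i = 0).card ≤ (2 * B + 1) ^ (s - 1) := by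
  classical
  have h1 : (Fintype.piFinset fun _ : {j : Fin s // j ≠ k} => Finset.Icc (-(B : ℤ)) B).card =
      (2 * B + 1) ^ (s - 1) := by
    rw [Fintype.card_piFinset, Finset.prod_const, card_icc, Finset.card_univ,
      Fintype.card_subtype_compl]
    simp
  rw [← h1]
  refine Finset.card_le_card_of_injOn (fun x j => x j.1) ?_ ?_
  · intro x hx
    simp only [Finset.coe_filter, vb, Fintype.mem_piFinset, Set.mem_ofPred_eq] at hx
    simp only [Finset.mem_coe, Fintype.mem_piFinset]
    exact fun j => hx.1 j.1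
  · intro x hx y hy hxy
    simp only [Finset.coe_filter, Set.mem_ofPred_eq] at hx hy
    have hne : ∀ j, j ≠ k → x j = y j := fun j hj => congrFun hxy ⟨j, hj⟩
    have h2 : l k * x k = l k * y k := by
      have e1 := Finset.add_sum_erase Finset.univ (fun i => l i * x i) (Finset.mem_univ k)
      have e2 := Finset.add_sum_erase Finset.univ (fun i => l i * y i) (Finset.mem_univ k)
      have e3 : ∑ i ∈ Finset.univ.erase k, l i * x i = ∑ i ∈ Finset.univ.erase k, l i * y i :=
        Finset.sum_congr rfl fun i hi => by rw [hne i (Finset.ne_of_mem_erase hi)]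
      linarith [hx.2, hy.2]
    funext j
    by_cases hj : j = k
    · rw [hj]
      exact mul_left_cancel₀ hk h2
    · exact hne j hj

/-- a vector with at most three nonzero coordinates -/
def ph {s : ℕ} (t : Fin s × Fin s × Fin s × ℤ × ℤ × ℤ) (j : Fin s) : ℤ :=
  if j = t.1 then t.2.2.2.1 else if j = t.2.1 then t.2.2.2.2.1 else
    if j = t.2.2.1 then t.2.2.2.2.2 else 0

theorem cover {s : ℕ} (S : Finset (Fin s)) (h0 : S.Nonempty) (h : S.card ≤ 3) :
    ∃ a b c : Fin s, ∀ j ∈ S, j = a ∨ j = b ∨ j = c := by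
  classical
  obtain ⟨a, ha⟩ := h0
  by_cases h1 : (S.erase a).Nonempty
  · obtain ⟨b, hb⟩ := h1
    by_cases h2 : ((S.erase a).erase b).Nonempty
    · obtain ⟨c, hc⟩ := h2
      have h3 : (((S.erase a).erase b).erase c).card = 0 := by
        rw [Finset.card_erase_of_mem hc, Finset.card_erase_of_mem hb, Finset.card_erase_of_mem ha]
        omega
      refine ⟨a, b, c, fun j hj => ?_⟩
      by_contra hcon
      push Not at hcon
      have : j ∈ ((S.erase a).erase b).erase c := by
        simp only [Finset.mem_erase]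
        exact ⟨hcon.2.2, hcon.2.1, hcon.1, hj⟩
      rw [Finset.card_eq_zero.1 h3] at this
      simp at this
    · refine ⟨a, b, b, fun j hj => ?_⟩
      by_contra hcon
      push Not at hcon
      refine h2 ⟨j, ?_⟩
      simp only [Finset.mem_erase]
      exact ⟨hcon.2.1, hcon.1, hj⟩
  · refine ⟨a, a, a, fun j hj => ?_⟩
    by_contra hcon
    push Not at hcon
    refine h1 ⟨j, ?_⟩
    simp only [Finset.mem_erase]
    exact ⟨hcon.1, hj⟩

theorem pf_BDS : T_BDS := by
  intro s B R
  classical
  obtain ⟨I, hI⟩ : ∃ I : Finset ℤ, I = Finset.Icc (-(R : ℤ)) R := ⟨_, rfl⟩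
  have hIc : I.card = 2 * R + 1 := by rw [hI]; exact card_icc R
  obtain ⟨P, hP⟩ : ∃ P : Finset (Fin s × Fin s × Fin s × ℤ × ℤ × ℤ),
    P = Finset.univ ×ˢ Finset.univ ×ˢ Finset.univ ×ˢ I ×ˢ I ×ˢ I := ⟨_, rfl⟩
  have hPc : P.card = s ^ 3 * (2 * R + 1) ^ 3 := by
    rw [hP]
    simp only [Finset.card_product, Finset.card_univ, Fintype.card_fin, hIc]
    ring
  have hsub : ((vb s B).filter fun x => ¬ Sup R x) ⊆
      P.biUnion fun t => if ph t = 0 then ∅ else (vb s B).filter fun x => ∑ i, ph t i * x i = 0 := by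
    intro x hx
    rw [Finset.mem_filter] at hx
    obtain ⟨hxv, hx2⟩ := hx
    unfold Sup at hx2
    push Not at hx2
    obtain ⟨l, hl3, hlR, hl0, hlne⟩ := hx2
    have hne : (Finset.univ.filter fun i => l i ≠ 0).Nonempty := by
      by_contra hcon
      refine hlne (funext fun i => ?_)
      by_contra hi
      exact hcon ⟨i, by simpa using hi⟩
    have hl3' : (Finset.univ.filter fun i => l i ≠ 0).card ≤ 3 := by
      refine le_trans (le_of_eq ?_) hl3
      congr 1
    obtain ⟨a, b, c, habc⟩ := cover _ hne hl3'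
    have hph : ph (a, b, c, l a, l b, l c) = l := by
      funext j
      unfold ph
      simp only
      by_cases h1 : j = a
      · rw [if_pos h1, h1]
      · rw [if_neg h1]
        by_cases h2 : j = b
        · rw [if_pos h2, h2]
        · rw [if_neg h2]
          by_cases h3 : j = c
          · rw [if_pos h3, h3]
          · rw [if_neg h3]
            by_contra hj
            have := habc j (by simpa using fun h => hj h.symm)
            tauto
    rw [Finset.mem_biUnion]
    refine ⟨(a, b, c, l a, l b, l c), ?_, ?_⟩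
    · rw [hP, hI]
      simp only [Finset.mem_product, Finset.mem_univ, true_and, Finset.mem_Icc]
      exact ⟨abs_le.1 (hlR a), abs_le.1 (hlR b), abs_le.1 (hlR c)⟩
    · rw [hph, if_neg hlne, Finset.mem_filter]
      exact ⟨hxv, hl0⟩
  refine (Finset.card_le_card hsub).trans ?_
  rw [← hPc]
  refine Finset.card_biUnion_le_card_mul _ _ _ fun t _ => ?_
  split_ifs with h
  · simp
  · obtain ⟨k, hk⟩ : ∃ k, ph t k ≠ 0 := by
      by_contra hcon
      push Not at hcon
      exact h (funext hcon)
    exact card_hyp B (ph t) k hk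

end Pool.Agent.H67.RQ
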