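import Pool.Agent.H32.RQ.Targets

/-!
Pairs of quadratic forms (`MP_63b6b1_nt`): multiplicativity of the number of primitive zeros (CRT).
-/

set_option autoImplicit false

open Finset Pool.Agent.H32.RQ

namespace Pool.Agent.H67.RQ

theorem qf_hom {A B : Type} [CommRing A] [CommRing B] (φ : A →+* B) {s : ℕ}
    (c : Fin 2 → Mon s → ℤ) (i : Fin 2) (x : Fin s → A) :
    φ (qf (cm A c i) x) = qf (cm B c i) (fun j => φ (x j)) := by
  simp [qf, cm, map_sum]

theorem qf_iso {A B C : Type} [CommRing A] [CommRing B] [CommRing C] (e : A ≃+* B × C) {s : ℕ}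
    (c : Fin 2 → Mon s → ℤ) (i : Fin 2) (x : Fin s → A) :
    qf (cm A c i) x = 0 ↔ qf (cm B c i) (fun j => (e (x j)).1) = 0 ∧
      qf (cm C c i) (fun j => (e (x j)).2) = 0 := by
  have h1 := qf_hom ((RingHom.fst B C).comp (e : A →+* B × C)) c i x
  have h2 := qf_hom ((RingHom.snd B C).comp (e : A →+* B × C)) c i x
  have h1' : (e (qf (cm A c i) x)).1 = qf (cm B c i) (fun j => (e (x j)).1) := h1
  have h2' : (e (qf (cm A c i) x)).2 = qf (cm C c i) (fun j => (e (x j)).2) := h2
  rw [← h1', ← h2']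
  constructor
  · intro h
    rw [h, map_zero]
    exact ⟨rfl, rfl⟩
  · rintro ⟨h3, h4⟩
    have : e (qf (cm A c i) x) = 0 := Prod.ext h3 h4
    exact (map_eq_zero_iff e e.injective).1 this

theorem prm_iso {A B C : Type} [CommRing A] [CommRing B] [CommRing C] (e : A ≃+* B × C) {s : ℕ}
    (x : Fin s → A) :
    Prm x ↔ Prm (fun j => (e (x j)).1) ∧ Prm (fun j => (e (x j)).2) := by
  constructor
  · rintro ⟨a, ha⟩
    have h : e (∑ i, a i * x i) = 1 := by rw [ha, map_one]
    rw [map_sum] at h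
    constructor
    · refine ⟨fun i => (e (a i)).1, ?_⟩
      have := congrArg Prod.fst h
      rw [Prod.fst_sum] at this
      simpa using this
    · refine ⟨fun i => (e (a i)).2, ?_⟩
      have := congrArg Prod.snd h
      rw [Prod.snd_sum] at this
      simpa using this
  · rintro ⟨⟨a, ha⟩, ⟨b, hb⟩⟩
    refine ⟨fun i => e.symm (a i, b i), e.injective ?_⟩
    rw [map_sum, map_one]
    refine Prod.ext ?_ ?_
    · rw [Prod.fst_sum]
      simpa using ha
    · rw [Prod.snd_sum]
      simpa using hb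

theorem pf_CRT : T_CRT := by
  intro s M N _ _ _ c hco
  classical
  let e := ZMod.chineseRemainder hco
  unfold am
  rw [← Finset.card_product]
  refine Finset.card_nbij' (fun x => (fun j => (e (x j)).1, fun j => (e (x j)).2))
    (fun q j => e.symm (q.1 j, q.2 j)) ?_ ?_ ?_ ?_
  · intro x hx
    simp only [Finset.coe_filter, Finset.mem_univ, true_and, Set.mem_ofPred_eq,
      Finset.coe_product, Set.mem_prod] at hx ⊢
    obtain ⟨h1, h2⟩ := hx
    obtain ⟨h3, h4⟩ := (prm_iso e x).1 h1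
    exact ⟨⟨h3, fun i => ((qf_iso e c i x).1 (h2 i)).1⟩, ⟨h4, fun i => ((qf_iso e c i x).1 (h2 i)).2⟩⟩
  · intro q hq
    simp only [Finset.coe_filter, Finset.mem_univ, true_and, Set.mem_ofPred_eq,
      Finset.coe_product, Set.mem_prod] at hq ⊢
    obtain ⟨⟨h1, h2⟩, ⟨h3, h4⟩⟩ := hq
    refine ⟨(prm_iso e _).2 ⟨?_, ?_⟩, fun i => (qf_iso e c i _).2 ⟨?_, ?_⟩⟩
    · simpa using h1
    · simpa using h3
    · simpa using h2 i
    · simpa using h4 i
  · intro x _
    funext j
    simp
  · intro q _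
    simp

end Pool.Agent.H67.RQ
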